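import Pool.Agent.W95.BK.Stm

/-!
# Topology of the Berkovich line
-/

open Polynomial Topology Filter MeasureTheory
open scoped ENNReal

set_option autoImplicit false

namespace Pool.Agent.W371.BK

open Pool.Agent.W95.BK

universe u

theorem ev : S_EV.{u} := by
  intro K _ h
  have h1 : Continuous (fun x : BA K => x.toFun) := continuous_induced_dom
  exact (continuous_apply h).comp h1

theorem map_multiset_prod {K : Type u} [NontriviallyNormedField K] (x : BA K)
    (s : Multiset K[X]) : x s.prod = (s.map (fun f => x f)).prod := by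
  induction s using Multiset.induction_on with
  | empty => simpa using BA.map_one x
  | cons a s ih => rw [Multiset.prod_cons, x.map_mul', ih, Multiset.map_cons, Multiset.prod_cons]

theorem val : S_VAL.{u} := by
  intro K _ _ x h
  conv_lhs => rw [(IsAlgClosed.splits h).eq_prod_roots]
  rw [x.map_mul', x.map_C', map_multiset_prod, Multiset.map_map]
  rfl

theorem map_neg {K : Type u} [NontriviallyNormedField K] (x : BA K) (f : K[X]) : x (-f) = x f := by
  have h1 : -f = C (-1) * f := by simp
  rw [h1, x.map_mul', x.map_C']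
  simp

theorem iso1 {K : Type u} [NontriviallyNormedField K] (x : BA K) (a b : K) :
    lam x a ≤ max (lam x b) ‖a - b‖ := by
  unfold lam
  have h1 : (X - C a : K[X]) = (X - C b) + C (b - a) := by
    rw [C_sub]
    ring
  rw [h1]
  refine (x.map_add' _ _).trans ?_
  rw [x.map_C', norm_sub_rev b a]

theorem iso2 {K : Type u} [NontriviallyNormedField K] (x : BA K) (a b : K) :
    ‖a - b‖ ≤ max (lam x a) (lam x b) := by
  unfold lam
  have h1 : (C (a - b) : K[X]) = -(X - C a) + (X - C b) := by
    rw [C_sub]
    ring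
  rw [← x.map_C', h1]
  refine (x.map_add' _ _).trans ?_
  rw [map_neg]

theorem iso : S_ISO.{u} := by
  intro K _ x a b
  have h1 := iso1 x a b
  have h2 := iso2 x a b
  have h3 := iso1 x b a
  refine ⟨h1, h2, ?_, ?_⟩
  · intro h
    apply le_antisymm
    · rwa [max_eq_right h.le] at h1
    · rcases le_max_iff.1 h2 with h4 | h4
      · exact h4
      · exact absurd h4 (not_le.2 h)
  · intro h
    apply le_antisymm
    · rwa [max_eq_left h.le] at h1
    · rw [norm_sub_rev] at h3
      rcases le_max_iff.1 h3 with h4 | h4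
      · exact h4
      · exact absurd h4 (not_le.2 h)

theorem lam_cl {K : Type u} [NontriviallyNormedField K] [IsUltrametricDist K] (a b : K) :
    lam (cl a) b = ‖a - b‖ := by
  change ‖(X - C b : K[X]).eval a‖ = ‖a - b‖
  simp

theorem glam : S_GLAM.{u} := by
  intro K _ _ a b
  refine ⟨lam_cl a b, ?_⟩
  intro r hr
  change (taylor a (X - C b : K[X])).gaussNorm (NormedField.toAbsoluteValue K) r = max ‖a - b‖ r
  have hv : ∀ z : K, (NormedField.toAbsoluteValue K) z = ‖z‖ := fun z => rfl
  have h1 : taylor a (X - C b : K[X]) = X + C (a - b) := by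
    rw [map_sub, taylor_X, taylor_C, C_sub]
    ring
  rw [h1]
  apply le_antisymm
  · obtain ⟨i, hi⟩ := exists_eq_gaussNorm (NormedField.toAbsoluteValue K) r (X + C (a - b) : K[X])
    rw [hi]
    rcases i with _ | i
    · have h2 : (X + C (a - b) : K[X]).coeff 0 = a - b := by simp
      rw [h2, hv, pow_zero, mul_one]
      exact le_max_left ‖a - b‖ r
    · rcases i with _ | i
      · have h2 : (X + C (a - b) : K[X]).coeff 1 = 1 := by simp
        have h3 : (X + C (a - b) : K[X]).coeff (0 + 1) = 1 := h2
        rw [h3]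
        simp
      · have h2 : (X + C (a - b) : K[X]).coeff (i + 1 + 1) = 0 := by
          simp [coeff_X]
        rw [h2]
        simp only [map_zero, zero_mul]
        exact (norm_nonneg _).trans (le_max_left _ _)
  · apply max_le
    · have h2 := le_gaussNorm (NormedField.toAbsoluteValue K) (X + C (a - b) : K[X]) hr.le 0
      have h3 : (X + C (a - b) : K[X]).coeff 0 = a - b := by simp
      rw [h3, hv, pow_zero, mul_one] at h2
      exact h2
    · have h2 := le_gaussNorm (NormedField.toAbsoluteValue K) (X + C (a - b) : K[X]) hr.le 1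
      have h3 : (X + C (a - b) : K[X]).coeff 1 = 1 := by simp
      rw [h3] at h2
      simpa using h2

theorem lam_nonneg {K : Type u} [NontriviallyNormedField K] (x : BA K) (a : K) : 0 ≤ lam x a :=
  x.nonneg' _

theorem lam_cont {K : Type u} [NontriviallyNormedField K] (a : K) :
    Continuous fun x : BA K => lam x a := ev K _

/-- The closed embedding in the product. -/
theorem closedEmb {K : Type u} [NontriviallyNormedField K] :
    IsClosedEmbedding (fun x : BA K => x.toFun) := by
  refine ⟨⟨⟨rfl⟩, ?_⟩, ?_⟩
  · intro x y h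
    exact BA.ext fun f => congrFun h f
  · have he : Set.range (fun x : BA K => x.toFun) =
        {g : K[X] → ℝ | ∀ f, 0 ≤ g f} ∩ ({g | ∀ a, g (C a) = ‖a‖} ∩
          ({g | ∀ f h, g (f * h) = g f * g h} ∩ {g | ∀ f h, g (f + h) ≤ max (g f) (g h)})) := by
      ext g
      constructor
      · rintro ⟨x, rfl⟩
        exact ⟨x.nonneg', x.map_C', x.map_mul', x.map_add'⟩
      · rintro ⟨h1, h2, h3, h4⟩
        exact ⟨⟨g, h1, h2, h3, h4⟩, rfl⟩
    rw [he]
    refine IsClosed.inter ?_ (IsClosed.inter ?_ (IsClosed.inter ?_ ?_))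
    · rw [Set.ofPred_forall]
      exact isClosed_iInter fun f => isClosed_le continuous_const (continuous_apply f)
    · rw [Set.ofPred_forall]
      exact isClosed_iInter fun a => isClosed_eq (continuous_apply _) continuous_const
    · simp only [Set.ofPred_forall]
      exact isClosed_iInter fun f => isClosed_iInter fun h =>
        isClosed_eq (continuous_apply (f * h)) ((continuous_apply f).mul (continuous_apply h))
    · simp only [Set.ofPred_forall]
      exact isClosed_iInter fun f => isClosed_iInter fun h =>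
        isClosed_le (continuous_apply (f + h)) ((continuous_apply f).max (continuous_apply h))

theorem sum_le {K : Type u} [NontriviallyNormedField K] (x : BA K) {ι : Type*} (s : Finset ι)
    (h : ι → K[X]) : x (∑ i ∈ s, h i) ≤ ∑ i ∈ s, x (h i) := by
  classical
  induction s using Finset.induction_on with
  | empty => simp [BA.map_zero]
  | insert i s hi ih =>
    rw [Finset.sum_insert hi, Finset.sum_insert hi]
    refine (x.map_add' _ _).trans (max_le ?_ ?_)
    · have : 0 ≤ ∑ i ∈ s, x (h i) := Finset.sum_nonneg fun i _ => x.nonneg' _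
      linarith
    · have := x.nonneg' (h i)
      linarith

theorem le_bound {K : Type u} [NontriviallyNormedField K] (x : BA K) (f : K[X]) (R : ℝ)
    (hR : lam x 0 ≤ R) : x f ≤ ∑ i ∈ Finset.range (f.natDegree + 1), ‖f.coeff i‖ * R ^ i := by
  have h0 : lam x 0 = x X := by simp [lam]
  conv_lhs => rw [f.as_sum_range_C_mul_X_pow]
  refine (sum_le x _ _).trans (Finset.sum_le_sum fun i _ => ?_)
  rw [x.map_mul', x.map_C', BA.map_pow]
  apply mul_le_mul_of_nonneg_left _ (norm_nonneg _)
  rw [← h0]
  exact pow_le_pow_left₀ (lam_nonneg x 0) hR i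

theorem compact_lam {K : Type u} [NontriviallyNormedField K] (r : ℝ) :
    IsCompact {x : BA K | lam x 0 ≤ r} := by
  have h1 : IsCompact (Set.pi Set.univ fun f : K[X] =>
      Set.Icc (0 : ℝ) (∑ i ∈ Finset.range (f.natDegree + 1), ‖f.coeff i‖ * r ^ i)) :=
    isCompact_univ_pi fun f => isCompact_Icc
  have h2 := closedEmb.isCompact_preimage (K := _) h1
  refine h2.of_isClosed_subset (isClosed_le (lam_cont 0) continuous_const) ?_
  intro x hx f _
  exact ⟨x.nonneg' f, le_bound x f r hx⟩

theorem t2 : S_T2.{u} := by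
  intro K _ _
  have h1 : T2Space (BA K) := closedEmb.toIsEmbedding.t2Space
  have h2 : WeaklyLocallyCompactSpace (BA K) := by
    constructor
    intro x
    refine ⟨{y | lam y 0 ≤ lam x 0 + 1}, compact_lam _, ?_⟩
    have h3 : IsOpen {y : BA K | lam y 0 < lam x 0 + 1} := isOpen_lt (lam_cont 0) continuous_const
    refine mem_of_superset (h3.mem_nhds (show lam x 0 < lam x 0 + 1 by linarith)) ?_
    intro y hy
    exact (show lam y 0 < lam x 0 + 1 from hy).le
  exact ⟨h1, inferInstance, inferInstance, compact_lam⟩

theorem compact_lam' {K : Type u} [NontriviallyNormedField K] (a : K) (r : ℝ) :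
    IsCompact {x : BA K | lam x a ≤ r} := by
  refine (compact_lam (K := K) (max r ‖a‖)).of_isClosed_subset
    (isClosed_le (lam_cont a) continuous_const) ?_
  intro x hx
  have h1 := iso1 x 0 a
  rw [zero_sub, norm_neg] at h1
  exact h1.trans (max_le_max_right _ hx)

theorem nhds_lam {K : Type u} [NontriviallyNormedField K] [IsAlgClosed K] (x : BA K) :
    𝓝 x = comap (fun y : BA K => fun a : K => lam y a) (𝓝 fun a => lam x a) := by
  apply le_antisymm
  · rw [← tendsto_iff_comap]
    exact tendsto_pi_nhds.2 fun a => (lam_cont a).tendsto x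
  · have h0 : 𝓝 x = comap (fun y : BA K => y.toFun) (𝓝 x.toFun) := nhds_induced _ _
    rw [h0, ← tendsto_iff_comap, tendsto_pi_nhds]
    intro h
    have h1 : ∀ y : BA K, y h = ‖h.leadingCoeff‖ * (h.roots.map (fun w => lam y w)).prod :=
      fun y => val K y h
    have h2 : (fun y : BA K => y.toFun h) =
        fun y => ‖h.leadingCoeff‖ * (h.roots.map (fun w => lam y w)).prod := funext h1
    rw [h2, show x.toFun h = _ from h1 x]
    apply Tendsto.const_mul
    apply tendsto_multiset_prod
    intro w _
    have hc : Continuous fun g : K → ℝ => g w := continuous_apply w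
    exact (hc.tendsto _).comp tendsto_comap

theorem nb : S_NB.{u} := by
  intro K _ _
  have hT2 := t2 K
  refine ⟨?_, ?_, ?_, ?_⟩
  · intro x U hU
    classical
    have hV : (fun y : BA K => (y : P1B K)) ⁻¹' U ∈ 𝓝 x := by
      rw [← OnePoint.comap_coe_nhds]
      exact preimage_mem_comap hU
    rw [nhds_lam, mem_comap] at hV
    obtain ⟨t, ht, htV⟩ := hV
    rw [nhds_pi, Filter.mem_pi] at ht
    obtain ⟨I, hI, t', ht', hsub⟩ := ht
    have hδ : ∀ a : K, ∃ δ : ℝ, 0 < δ ∧ ∀ s : ℝ, |s - lam x a| < δ → s ∈ t' a := by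
      intro a
      obtain ⟨δ, hδ, hb⟩ := Metric.mem_nhds_iff.1 (ht' a)
      exact ⟨δ, hδ, fun s hs => hb (by rwa [Metric.mem_ball, Real.dist_eq])⟩
    choose δ hδ hδt using hδ
    refine ⟨hI.toFinset.image fun a => (a, lam x a + δ a),
      (hI.toFinset.filter fun a => 0 < lam x a).image fun a => (a, max 0 (lam x a - δ a)),
      ?_, ?_, ?_⟩
    · intro p hp
      rw [Finset.mem_image] at hp
      obtain ⟨a, _, rfl⟩ := hp
      have := hδ a
      simp only
      linarith
    · intro p hp
      rw [Finset.mem_image] at hp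
      obtain ⟨a, ha, rfl⟩ := hp
      have h1 := (Finset.mem_filter.1 ha).2
      have h2 := hδ a
      exact ⟨le_max_left _ _, max_lt h1 (by linarith)⟩
    · intro y hA hB
      have h1 : (fun a => lam y a) ∈ t := by
        apply hsub
        intro a ha
        apply hδt
        have h2 := hA (a, lam x a + δ a)
          (Finset.mem_image.2 ⟨a, hI.mem_toFinset.2 ha, rfl⟩)
        simp only at h2
        rw [abs_lt]
        refine ⟨?_, by linarith⟩
        by_cases h3 : 0 < lam x a
        · have h4 := hB (a, max 0 (lam x a - δ a))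
            (Finset.mem_image.2 ⟨a, Finset.mem_filter.2 ⟨hI.mem_toFinset.2 ha, h3⟩, rfl⟩)
          simp only at h4
          have := le_max_right 0 (lam x a - δ a)
          linarith
        · have h4 : lam x a = 0 := le_antisymm (not_lt.1 h3) (lam_nonneg x a)
          have h5 := lam_nonneg y a
          have h6 := hδ a
          linarith
      exact htV h1
  · intro U hU
    refine ⟨mem_of_mem_nhds hU, ?_⟩
    obtain ⟨s, ⟨_, hs⟩, hsU⟩ := OnePoint.hasBasis_nhds_infty.mem_iff.1 hU
    obtain ⟨M, hM⟩ := hs.bddAbove_image (lam_cont (K := K) 0).continuousOn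
    refine ⟨max M 1, lt_of_lt_of_le one_pos (le_max_right _ _), ?_⟩
    intro y hy
    apply hsU
    left
    refine ⟨y, ?_, rfl⟩
    intro hys
    have h1 : lam y 0 ≤ M := hM ⟨y, hys, rfl⟩
    have h2 := le_max_left M 1
    linarith
  · intro a r
    have he : ball a r = (fun y : BA K => (y : P1B K)) '' {y | lam y a < r} := by
      ext p
      constructor
      · rintro ⟨y, rfl, hy⟩
        exact ⟨y, hy, rfl⟩
      · rintro ⟨y, hy, rfl⟩
        exact ⟨y, rfl, hy⟩
    rw [he]
    exact OnePoint.isOpenEmbedding_coe.isOpenMap _ (isOpen_lt (lam_cont a) continuous_const)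
  · intro a r
    have he : {x : P1B K | ∀ y : BA K, x = (y : P1B K) → r < lam y a} =
        ((fun y : BA K => (y : P1B K)) '' {y | lam y a ≤ r})ᶜ := by
      ext p
      constructor
      · rintro hp ⟨y, hy, rfl⟩
        exact absurd (hp y rfl) (not_lt.2 hy)
      · intro hp y hy
        by_contra hc
        exact hp ⟨y, not_lt.1 hc, hy.symm⟩
    rw [he]
    exact OnePoint.isOpen_compl_image_coe.2
      ⟨isClosed_le (lam_cont a) continuous_const, compact_lam' a r⟩

theorem kerc : S_KERC.{u} := by
  intro K _ _ a s t hs ht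
  have hT2 := t2 K
  rw [OnePoint.continuous_iff]
  constructor
  · have h1 : {y : BA K | lam y a ≤ max s t}ᶜ ∈ coclosedCompact (BA K) := by
      rw [compl_mem_coclosedCompact, (isClosed_le (lam_cont a) continuous_const).closure_eq]
      exact compact_lam' a _
    have h2 : (fun y : BA K => ker a s t (y : P1B K)) =ᶠ[coclosedCompact (BA K)] fun _ => 0 := by
      filter_upwards [h1] with y hy
      have h3 : max s t < lam y a := not_le.1 hy
      change Real.log (max (lam y a) t) - Real.log (max (lam y a) s) = 0
      rw [max_eq_left ((le_max_right s t).trans h3.le),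
        max_eq_left ((le_max_left s t).trans h3.le), sub_self]
    exact tendsto_const_nhds.congr' h2.symm
  · have h1 : ∀ c : ℝ, 0 < c → Continuous fun y : BA K => Real.log (max (lam y a) c) := by
      intro c hc
      apply Continuous.log ((lam_cont a).max continuous_const)
      intro y
      exact (lt_of_lt_of_le hc (le_max_right _ _)).ne'
    exact (h1 t ht).sub (h1 s hs)

theorem eq_cl {K : Type u} [NontriviallyNormedField K] [IsUltrametricDist K] (x : BA K) (w : K)
    (h : lam x w = 0) : x = cl w := by
  apply BA.ext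
  intro g
  obtain ⟨q, hq⟩ := X_sub_C_dvd_sub_C_eval (a := w) (p := g)
  have h0 : x ((X - C w) * q) = 0 := by
    rw [x.map_mul']
    have : x (X - C w) = 0 := h
    rw [this, zero_mul]
  change x g = ‖g.eval w‖
  apply le_antisymm
  · have h1 : g = C (g.eval w) + (X - C w) * q := by rw [← hq]; ring
    have h2 := x.map_add' (C (g.eval w)) ((X - C w) * q)
    rw [← h1, h0, x.map_C'] at h2
    exact h2.trans (max_le le_rfl (norm_nonneg _))
  · have h1 : C (g.eval w) = g + -((X - C w) * q) := by rw [← hq]; ring
    have h2 := x.map_add' g (-((X - C w) * q))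
    rw [← h1, map_neg, h0, x.map_C'] at h2
    exact h2.trans (max_le le_rfl (x.nonneg' _))

theorem avoid : S_AVOID.{u} := by
  intro K _ _ _ x hx
  have h1 : ∀ h : K[X], h ≠ 0 → x h ≠ 0 := by
    intro h hh h0
    rw [val K x h] at h0
    rcases mul_eq_zero.1 h0 with h2 | h2
    · exact hh (leadingCoeff_eq_zero.1 (norm_eq_zero.1 h2))
    · rw [Multiset.prod_eq_zero_iff, Multiset.mem_map] at h2
      obtain ⟨w, _, hw⟩ := h2
      exact hx w (eq_cl x w hw)
  refine ⟨h1, ?_⟩
  intro c
  have h2 : 0 < lam x c := lt_of_le_of_ne (lam_nonneg x c) (Ne.symm (h1 _ (X_sub_C_ne_zero c)))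
  have h3 := (nb K).2.2.2 c (lam x c / 2)
  have h4 : {p : P1B K | ∀ y : BA K, p = (y : P1B K) → lam x c / 2 < lam y c} ∈ 𝓝 (x : P1B K) := by
    apply h3.mem_nhds
    intro y hy
    rw [← OnePoint.coe_injective hy]
    linarith
  have h5 := preimage_mem_comap (m := fun b : K => ((cl b : BA K) : P1B K)) h4
  filter_upwards [h5] with b hb hbc
  subst hbc
  have h6 := hb (cl b) rfl
  rw [lam_cl, sub_self, norm_zero] at h6
  linarith

theorem dense : S_DVG.{u} → S_DENSE.{u} := by
  intro hDVG K _ _ _ x
  unfold toward
  rw [comap_neBot_iff]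
  intro U hU
  classical
  induction x using OnePoint.rec with
  | infty =>
    obtain ⟨-, r, _, hr⟩ := (nb K).2.1 U hU
    obtain ⟨b, hb⟩ := NormedField.exists_lt_norm K r
    refine ⟨b, hr _ ?_⟩
    rwa [lam_cl, sub_zero]
  | coe x =>
    obtain ⟨A, B, hA, hB, hAB⟩ := (nb K).1 x U hU
    set T : Finset K := (A ∪ B).image Prod.fst with hT
    rcases T.eq_empty_or_nonempty with hTe | hTne
    · have hABe : A ∪ B = ∅ := Finset.image_eq_empty.1 hTe
      rw [Finset.union_eq_empty] at hABe
      refine ⟨0, hAB _ ?_ ?_⟩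
      · intro p hp
        rw [hABe.1] at hp
        exact absurd hp (Finset.notMem_empty p)
      · intro p hp
        rw [hABe.2] at hp
        exact absurd hp (Finset.notMem_empty p)
    · obtain ⟨a, haT, hamin⟩ := T.exists_min_image (fun a => lam x a) hTne
      have hev : ∀ᶠ s in 𝓝[>] (lam x a), (∀ p ∈ A, s < p.2) ∧
          ∀ c ∈ T, lam x a < ‖a - c‖ → s < ‖a - c‖ := by
        apply Eventually.and
        · rw [Finset.eventually_all]
          intro p hp
          have h1 : lam x a < p.2 := (hamin p.1 (Finset.mem_image.2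
            ⟨p, Finset.mem_union_left _ hp, rfl⟩)).trans_lt (hA p hp)
          exact nhdsWithin_le_nhds (eventually_lt_nhds h1)
        · rw [Finset.eventually_all]
          intro c _
          by_cases h : lam x a < ‖a - c‖
          · filter_upwards [nhdsWithin_le_nhds (eventually_lt_nhds h)] with s hs _ using hs
          · exact Eventually.of_forall fun s h' => absurd h' h
      obtain ⟨t, ht, hts⟩ := mem_nhdsGT_iff_exists_Ioo_subset.1 hev
      have ht' : lam x a < t := ht
      have hl0 := lam_nonneg x a
      obtain ⟨c, hc1, hc2⟩ := hDVG K ((lam x a + t) / 2) t (by linarith) (by linarith)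
      have hcs := hts (show ‖c‖ ∈ Set.Ioo (lam x a) t from ⟨by linarith, hc2⟩)
      obtain ⟨hcA, hcT⟩ := hcs
      have hlc : lam x a < ‖c‖ := by linarith
      have hkey : ∀ e ∈ T, (‖a + c - e‖ = lam x e) ∨ (‖a + c - e‖ = ‖c‖ ∧ lam x e = lam x a) := by
        intro e he
        by_cases h : lam x a < ‖a - e‖
        · left
          have h1 : ‖c‖ < ‖a - e‖ := hcT e he h
          have h2 : a + c - e = (a - e) + c := by ring
          have h3 : ‖(a - e) + c‖ = max ‖a - e‖ ‖c‖ :=
            IsUltrametricDist.norm_add_eq_max_of_norm_ne_norm h1.ne'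
          rw [h2, h3, max_eq_left h1.le]
          have h4 := (iso K x e a).2.2.1 (by rwa [norm_sub_rev])
          rw [h4, norm_sub_rev]
        · right
          push Not at h
          have h1 : ‖a - e‖ < ‖c‖ := h.trans_lt hlc
          have h2 : a + c - e = (a - e) + c := by ring
          have h3 : ‖(a - e) + c‖ = max ‖a - e‖ ‖c‖ :=
            IsUltrametricDist.norm_add_eq_max_of_norm_ne_norm h1.ne
          rw [h2, h3, max_eq_right h1.le]
          refine ⟨rfl, le_antisymm ?_ (hamin e he)⟩
          have h4 := iso1 x e a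
          rw [norm_sub_rev] at h4
          exact h4.trans (max_le le_rfl h)
      refine ⟨a + c, hAB _ ?_ ?_⟩
      · intro p hp
        have hpT : p.1 ∈ T := Finset.mem_image.2 ⟨p, Finset.mem_union_left _ hp, rfl⟩
        rw [lam_cl]
        rcases hkey p.1 hpT with h | ⟨h, -⟩
        · rw [h]
          exact hA p hp
        · rw [h]
          exact hcA p hp
      · intro p hp
        have hpT : p.1 ∈ T := Finset.mem_image.2 ⟨p, Finset.mem_union_right _ hp, rfl⟩
        rw [lam_cl]
        rcases hkey p.1 hpT with h | ⟨h, h'⟩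
        · rw [h]
          exact (hB p hp).2
        · rw [h]
          have := (hB p hp).2
          rw [h'] at this
          linarith

theorem nbgen : S_NBGEN.{u} := by
  intro K _ _ _ a c r hr _ V hV
  classical
  obtain ⟨A, B, hA, hB, hAB⟩ := (nb K).1 _ V hV
  refine ⟨B.image Prod.fst, ?_⟩
  intro b hb hbB
  have hlam : ∀ p : K, lam (gauss a r hr) p = max ‖a - p‖ r := fun p => (glam K a p).2 r hr
  apply hAB
  · intro p hp
    rw [lam_cl]
    have h1 := hA p hp
    rw [hlam] at h1
    refine lt_of_le_of_lt ?_ h1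
    have h2 : b - p.1 = (b - a) + (a - p.1) := by ring
    rw [h2]
    refine (IsUltrametricDist.norm_add_le_max _ _).trans (max_le ?_ (le_max_left _ _))
    exact hb.trans (le_max_right _ _)
  · intro p hp
    rw [lam_cl]
    have h1 := (hB p hp).2
    rw [hlam] at h1
    refine lt_of_lt_of_le h1 (max_le ?_ (hbB p.1 (Finset.mem_image.2 ⟨p, hp, rfl⟩)))
    have h2 : a - p.1 = (a - b) + (b - p.1) := by ring
    have h3 := IsUltrametricDist.norm_add_le_max (a - b) (b - p.1)
    rw [← h2] at h3
    have h4 := hbB p.1 (Finset.mem_image.2 ⟨p, hp, rfl⟩)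
    refine h3.trans (max_le ?_ le_rfl)
    rw [norm_sub_rev]
    exact hb.trans h4

end Pool.Agent.W371.BK
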